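import Pool.Agent.H572R4.QB.Main2

/-!
# The Aaronson-Ambainis inequality with exponent `C log (2 deg f)` for all bounded functions
-/

set_option autoImplicit false

namespace Pool.Agent.Results.MP_cf5f8b_an.AllPolynomials

theorem result :
    ∃ C : ℝ, 0 < C ∧
      ∀ n : ℕ, ∀ f : (Fin n → Bool) → ℝ, (∀ x, |f x| ≤ 1) →
        ∀ d : ℕ, 1 ≤ d → (∀ S : Finset (Fin n), d < S.card →
            ∑ x : Fin n → Bool, f x * ∏ i ∈ S, (-1 : ℝ) ^ (x i).toNat = 0) →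
        0 < ((2:ℝ) ^ n)⁻¹ * ∑ x : Fin n → Bool, f x ^ 2
              - (((2:ℝ) ^ n)⁻¹ * ∑ x : Fin n → Bool, f x) ^ 2 →
        ∃ j : Fin n,
          ((((2:ℝ) ^ n)⁻¹ * ∑ x : Fin n → Bool, f x ^ 2
              - (((2:ℝ) ^ n)⁻¹ * ∑ x : Fin n → Bool, f x) ^ 2) / (4 * (d : ℝ)))
              ^ (C * Real.log (2 * (d : ℝ))) ≤
            ((2:ℝ) ^ n)⁻¹ * ∑ x : Fin n → Bool,
              ((f x - f (Function.update x j (!x j))) / 2) ^ 2 := by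
  obtain ⟨C, hC, h⟩ := Pool.Agent.H572R4.QA.main03
  refine ⟨C, hC, ?_⟩
  intro n f hf d hd hdeg hV
  have e : ∀ g : (Fin n → Bool) → ℝ, ((2:ℝ) ^ n)⁻¹ * ∑ x, g x = Pool.Agent.H572R2.EE g := by
    intro g
    unfold Pool.Agent.H572R2.EE
    rw [inv_mul_eq_div]
  have ev : ((2:ℝ) ^ n)⁻¹ * ∑ x : Fin n → Bool, f x ^ 2
      - (((2:ℝ) ^ n)⁻¹ * ∑ x : Fin n → Bool, f x) ^ 2 = Pool.Agent.H572R4.QA.var f := by
    unfold Pool.Agent.H572R4.QA.var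
    rw [e, e]
  rw [ev] at hV ⊢
  obtain ⟨j, hj⟩ := h n d f hd hf hdeg hV
  refine ⟨j, ?_⟩
  rw [e]
  exact hj

end Pool.Agent.Results.MP_cf5f8b_an.AllPolynomials
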