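import Pool.Agent.H746R2.AA.Weak3

/-!
# The Aaronson-Ambainis inequality for `L¹` mixtures of juntas and low degree functions

`f` has values in `[-1,1]`, degree at most `d` and is approximated in `L²`, up to a quarter of its
variance, by `∑ a, J a * Q a`, where `J a` depends on at most `k` coordinates and `Q a` is an
arbitrary function of degree at most `r`.  With `Λ = ∑ a, 𝔼 |J a * Q a|`,
`Var(f)^5 ≤ 2^24 3^(6r) (k³ d² Λ² + d⁶ Λ⁴) · max_j Inf_j(f)`.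
-/

set_option autoImplicit false

namespace Pool.Agent.Results.MP_cf5f8b_an.HybridMixture

open Pool.Agent.H746R2.AA

theorem result {ι κ : Type*} [Fintype ι] [DecidableEq ι] [Fintype κ]
    (d k r : ℕ) (f : (ι → ℤˣ) → ℝ) (hf : ∀ x, |f x| ≤ 1)
    (hdeg : ∀ S : Finset ι, d < S.card → ∑ x : ι → ℤˣ, f x * ∏ i ∈ S, ((x i : ℤ) : ℝ) = 0)
    -- the mixture
    (C : κ → Finset ι) (hC : ∀ a, (C a).card ≤ k)
    (J Q : κ → (ι → ℤˣ) → ℝ)
    (hJ : ∀ a x y, (∀ i ∈ C a, x i = y i) → J a x = J a y)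
    (hQdeg : ∀ a, ∀ S : Finset ι, r < S.card →
      ∑ x : ι → ℤˣ, Q a x * ∏ i ∈ S, ((x i : ℤ) : ℝ) = 0)
    -- `f` is approximated by the mixture up to a quarter of its variance
    (hclose : (∑ x : ι → ℤˣ, (f x - ∑ a, J a x * Q a x) ^ 2) / (2 : ℝ) ^ Fintype.card ι ≤
      ((∑ x : ι → ℤˣ, f x ^ 2) / (2 : ℝ) ^ Fintype.card ι
        - ((∑ x : ι → ℤˣ, f x) / (2 : ℝ) ^ Fintype.card ι) ^ 2) / 4) :
    ((∑ x : ι → ℤˣ, f x ^ 2) / (2 : ℝ) ^ Fintype.card ι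
        - ((∑ x : ι → ℤˣ, f x) / (2 : ℝ) ^ Fintype.card ι) ^ 2) ^ 5 ≤
      2 ^ 24 * 3 ^ (6 * r) *
        ((k : ℝ) ^ 3 * (d : ℝ) ^ 2
            * (∑ a, (∑ x : ι → ℤˣ, |J a x * Q a x|) / (2 : ℝ) ^ Fintype.card ι) ^ 2
          + (d : ℝ) ^ 6
            * (∑ a, (∑ x : ι → ℤˣ, |J a x * Q a x|) / (2 : ℝ) ^ Fintype.card ι) ^ 4) *
      ⨆ j : ι, (∑ x : ι → ℤˣ,
          ((f (Function.update x j 1) - f (Function.update x j (-1))) / 2) ^ 2)
            / (2 : ℝ) ^ Fintype.card ι := by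
  classical
  have hfc : ∀ g : (ι → ℤˣ) → ℝ, ∀ m : ℕ, (∀ S : Finset ι, m < S.card →
      ∑ x : ι → ℤˣ, g x * ∏ i ∈ S, ((x i : ℤ) : ℝ) = 0) →
      ∀ S : Finset ι, m < S.card → Pool.Agent.H722R2.AA.fc g S = 0 := by
    intro g m hg S hS
    unfold Pool.Agent.H722R2.AA.fc Pool.Agent.H722R2.AA.sg
    rw [hg S hS, zero_div]
  have hvar : (∑ x : ι → ℤˣ, f x ^ 2) / (2 : ℝ) ^ Fintype.card ι
        - ((∑ x : ι → ℤˣ, f x) / (2 : ℝ) ^ Fintype.card ι) ^ 2 = Cov f f := by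
    unfold Cov Ex
    simp_rw [← sq]
  rw [hvar] at hclose ⊢
  have h3 : (3 : ℝ) ^ (6 * r) = 729 ^ r := by rw [pow_mul]; norm_num
  rw [h3]
  refine weak_mix d f (hfc f d hdeg) hf k r C hC J Q hJ
    (fun a => hfc (Q a) r (hQdeg a)) ?_ _ le_rfl _ ?_ ?_
  · exact hclose
  · intro l
    exact le_ciSup (f := fun j : ι => (∑ x : ι → ℤˣ,
          ((f (Function.update x j 1) - f (Function.update x j (-1))) / 2) ^ 2)
            / (2 : ℝ) ^ Fintype.card ι) (Set.finite_range _).bddAbove l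
  · exact Real.iSup_nonneg fun j => by positivity

end Pool.Agent.Results.MP_cf5f8b_an.HybridMixture
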