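import Pool.Agent.H703R2.AB.Alg
import Pool.Agent.H703R3.QS.Final

/-!
# An Aaronson-Ambainis inequality for all quantum algorithms, by Fourier levels

A quantum query algorithm makes `T` queries.  Its classical record (the list of all measurement
outcomes and coin tosses so far, most recent outcome first) is unbounded; the quantum state kept
from one query to the next has an arbitrary dimension `M`.  After the record `h` it applies an
arbitrary isometry `V h` into an arbitrarily large workspace with basis `B`, then the phase query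
(the basis state `b` is multiplied by `x_i` if `pos h b = some i`, and by `1` if `pos h b = none`),
and then an arbitrary instrument with Kraus operators `K h w`, which map back to dimension `M` and
produce the classical outcome `w`.  The (subnormalised) state after the record `h` is `A h x`, its
squared norm is the probability of the record `h` on input `x`, and `f x` is the acceptance
probability on input `x`, when a transcript `a` is accepted with probability `g a`.

Let `Wk` be the Fourier weight of `f` on the levels from `1` to `k` (it is the whole variance for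
`k ≥ 2 T`).  Some variable of `f` has influence at least
`Wk ^ 5 / (Var f * (4 T) ^ (8010 * log (2 k)))`: this is polynomial in `T` for bounded `k`,
quasi-polynomial in `T` in general, and always polynomial in the weight.  The bound does not
depend on `M`, `B` and `W`.
-/

set_option autoImplicit false

namespace Pool.Agent.Results.MP_cf5f8b_an.LevelWeight

open Matrix Pool.Agent.H746R2.AA Pool.Agent.H703R2.AA Pool.Agent.H703R2.AB

theorem result {B W : Type*} [Fintype B] [DecidableEq B] [Fintype W] (n T M : ℕ)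
    -- the algorithm
    (pos : List W → B → Option (Fin n))
    (V : List W → Matrix B (Fin M) ℂ) (hV : ∀ h, (V h)ᴴ * V h = 1)
    (K : List W → W → Matrix (Fin M) B ℂ) (hK : ∀ h, ∑ w, (K h w)ᴴ * K h w = 1)
    (v : Fin M → ℂ) (hv : ∑ i, ‖v i‖ ^ 2 = 1)
    -- its state after a record
    (A : List W → (Fin n → ℤˣ) → Fin M → ℂ)
    (hA0 : ∀ x, A [] x = v)
    (hA : ∀ h w x, A (w :: h) x = K h w *ᵥ (fun b => (Option.elim (pos h b) 1
      (fun i => (((x i : ℤˣ) : ℤ) : ℂ))) * (V h *ᵥ A h x) b))
    -- its acceptance probability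
    (g : (Fin T → W) → ℝ) (hg0 : ∀ a, 0 ≤ g a) (hg1 : ∀ a, g a ≤ 1)
    (f : (Fin n → ℤˣ) → ℝ)
    (hf : ∀ x, f x = ∑ a : Fin T → W, g a * ∑ i, ‖A (List.ofFn a) x i‖ ^ 2)
    -- the mean and the variance
    (E Var : ℝ) (hE : E = (∑ x, f x) / 2 ^ n) (hVar : Var = (∑ x, (f x - E) ^ 2) / 2 ^ n)
    -- the Fourier weight on the levels from `1` to `k`
    (k : ℕ) (hk : 1 ≤ k) (Wk : ℝ)
    (hWk : Wk = ∑ S ∈ Finset.univ.filter (fun S : Finset (Fin n) => 1 ≤ S.card ∧ S.card ≤ k),
      ((∑ x, f x * ∏ i ∈ S, (((x i : ℤˣ) : ℤ) : ℝ)) / 2 ^ n) ^ 2) :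
    (2 * T ≤ k → Wk = Var) ∧
    (0 < Wk → ∃ i : Fin n,
      Wk ^ 5 ≤ Real.exp (8010 * (Real.log (4 * T) * Real.log (2 * k)))
        * (Var * ((∑ x, ((f (Function.update x i 1) - f (Function.update x i (-1))) / 2) ^ 2)
          / 2 ^ n))) := by
  classical
  set P := mkPr pos V K hV hK v hv with hP
  have hAP : ∀ h x, P.A h x = rv (A h x) := mkPr_A pos V K hV hK v hv A hA0 hA
  obtain ⟨g', hg'0, hg'1, hg'2⟩ := gext T g hg0 hg1
  have hfP : f = P.out T g' := by
    funext x
    rw [hf]
    unfold Pr.out
    rw [S_eq_ofFn]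
    refine Finset.sum_congr rfl fun a _ => ?_
    rw [hg'2, hAP, nsq_rv]
  have hcard : Fintype.card (Fin n) = n := Fintype.card_fin n
  have hEx : ∀ F : (Fin n → ℤˣ) → ℝ, (∑ x, F x) / 2 ^ n = Ex F := by
    intro F; unfold Ex; rw [hcard]
  have hVV : Var = Cov f f := by
    rw [hVar, hEx, Ex_sq_sub, hE, hEx, sub_self]
    simp
  have hInf : ∀ i, (∑ x, ((f (Function.update x i 1) - f (Function.update x i (-1))) / 2) ^ 2) / 2 ^ n
      = Inf f i := by
    intro i
    rw [hEx]
    rfl
  have hWW : Wk = Pool.Agent.H703R3.QS.lw k f := by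
    rw [hWk]
    unfold Pool.Agent.H703R3.QS.lw Pool.Agent.H722R2.AA.fc Pool.Agent.H722R2.AA.sg
    rw [hcard]
  constructor
  · intro hkT
    rw [hWW, hVV]
    exact Pool.Agent.H703R3.QS.lw_eq_Cov k (2 * T) f
      (by rw [hfP]; exact Pool.Agent.H703R3.QS.Deg_out P T g') hkT
  · intro hpos
    have hV1 : 0 < Cov f f := by
      have := Pool.Agent.H703R3.QS.lw_le_Cov k f
      rw [← hWW] at this
      linarith
    have hT : 1 ≤ T := T_pos P T g' (by rw [← hfP]; exact hV1)
    obtain ⟨i, hi⟩ := Pool.Agent.H703R3.QS.infl_level P T hT k hk g' hg'0 hg'1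
      (by rw [← hfP, ← hWW]; exact hpos)
    refine ⟨i, ?_⟩
    rw [← hfP, ← hWW, ← hVV] at hi
    rw [hInf]
    exact hi

end Pool.Agent.Results.MP_cf5f8b_an.LevelWeight
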