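import Pool.Agent.H722R2.AA.Main

/-!
# The Aaronson-Ambainis inequality for hypergraph properties

The coordinates form a finite set `E` on which the permutations of a vertex set `V` act, every
coordinate having a support of at most `r` vertices (`E = V`, edges of the complete graph on `V`,
`r`-subsets of `V`, `r`-tuples of vertices, ...).  The function `f` is invariant under the
permutations of `V` that preserve a colouring `col`.
-/

set_option autoImplicit false

namespace Pool.Agent.Results.MP_cf5f8b_an.RelationalSymmetry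

open Pool.Agent.H722R2.AA

/-- Aaronson-Ambainis inequality, with constant depending on `r` only and a polynomial loss in
the number of orbits of coordinates. -/
theorem result {V E K : Type*} [Fintype V] [DecidableEq V] [Fintype E] [DecidableEq E]
    [Nonempty E] [MulAction (Equiv.Perm V) E]
    -- supports
    (supp : E → Finset V) (r : ℕ)
    (hcard : ∀ e, (supp e).card ≤ r)
    (hfix : ∀ (π : Equiv.Perm V) (e : E), (∀ v ∈ supp e, π v = v) → π • e = e)
    (hequi : ∀ (π : Equiv.Perm V) (e : E), supp (π • e) = (supp e).image π)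
    -- the colouring of the vertices and the function
    (col : V → K) (d : ℕ) (f : (E → ℤˣ) → ℝ) (hf : ∀ x, |f x| ≤ 1)
    (hdeg : ∀ S : Finset E, d < S.card → ∑ x : E → ℤˣ, f x * ∏ i ∈ S, ((x i : ℤ) : ℝ) = 0)
    (hinv : ∀ π : Equiv.Perm V, (∀ v, col (π v) = col v) →
      ∀ x : E → ℤˣ, f (fun e => x (π • e)) = f x)
    -- representatives of the orbits of the coordinates on which `f` depends
    (R : Finset E)
    (hR : ∀ e, (∃ x : E → ℤˣ, f (Function.update x e 1) ≠ f (Function.update x e (-1))) →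
      ∃ e₀ ∈ R, ∃ π : Equiv.Perm V, (∀ v, col (π v) = col v) ∧ π • e₀ = e) :
    ∃ e : E, (((∑ x : E → ℤˣ, f x ^ 2) / (2 : ℝ) ^ Fintype.card E
        - ((∑ x : E → ℤˣ, f x) / (2 : ℝ) ^ Fintype.card E) ^ 2) /
        (2 * (((r : ℝ) + 1) * (4 * (r : ℝ) ^ 2 + 1)) ^ r * R.card * (d : ℝ) ^ (2 * r + 2))) ^ 2 ≤
      (∑ x : E → ℤˣ,
          ((f (Function.update x e 1) - f (Function.update x e (-1))) / 2) ^ 2)
            / (2 : ℝ) ^ Fintype.card E := by
  have h := strong_AA supp r hcard hfix hequi col d f hdeg hinv R hR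
  set v : ℝ := (∑ x : E → ℤˣ, f x ^ 2) / (2 : ℝ) ^ Fintype.card E
        - ((∑ x : E → ℤˣ, f x) / (2 : ℝ) ^ Fintype.card E) ^ 2 with hv
  set C : ℝ := 2 * (((r : ℝ) + 1) * (4 * (r : ℝ) ^ 2 + 1)) ^ r * R.card * (d : ℝ) ^ (2 * r + 2)
    with hC
  have hv0 : 0 ≤ v := by
    have h1 := sq_sum_le_card_mul_sum_sq (s := (Finset.univ : Finset (E → ℤˣ))) (f := f)
    have h2 : ((Finset.univ : Finset (E → ℤˣ)).card : ℝ) = (2 : ℝ) ^ Fintype.card E := by
      rw [Finset.card_univ, Fintype.card_fun]
      simp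
    rw [h2] at h1
    have hpos : (0 : ℝ) < (2 : ℝ) ^ Fintype.card E := by positivity
    rw [hv, div_pow, sub_nonneg, div_le_div_iff₀ (by positivity) hpos]
    nlinarith
  have hC0 : 0 ≤ C := by positivity
  obtain ⟨e, he⟩ := exists_eq_ciSup_of_finite (f := fun e : E => Real.sqrt ((∑ x : E → ℤˣ,
          ((f (Function.update x e 1) - f (Function.update x e (-1))) / 2) ^ 2)
            / (2 : ℝ) ^ Fintype.card E))
  refine ⟨e, ?_⟩
  rw [← he] at h
  have hI0 : 0 ≤ (∑ x : E → ℤˣ,
          ((f (Function.update x e 1) - f (Function.update x e (-1))) / 2) ^ 2)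
            / (2 : ℝ) ^ Fintype.card E := by positivity
  have hB : (⨆ x : E → ℤˣ, |f x|) ≤ 1 := ciSup_le hf
  have hB0 : 0 ≤ ⨆ x : E → ℤˣ, |f x| := Real.iSup_nonneg fun x => abs_nonneg _
  rcases hC0.eq_or_lt with hC1 | hC1
  · rw [← hC1]; simpa using hI0
  · have h3 : v / C ≤ Real.sqrt ((∑ x : E → ℤˣ,
          ((f (Function.update x e 1) - f (Function.update x e (-1))) / 2) ^ 2)
            / (2 : ℝ) ^ Fintype.card E) := by
      rw [div_le_iff₀ hC1]
      refine h.trans ?_
      have h4 : (⨆ x : E → ℤˣ, |f x|) * C ≤ 1 * C := mul_le_mul_of_nonneg_right hB hC0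
      rw [one_mul] at h4
      calc _ ≤ C * Real.sqrt ((∑ x : E → ℤˣ,
          ((f (Function.update x e 1) - f (Function.update x e (-1))) / 2) ^ 2)
            / (2 : ℝ) ^ Fintype.card E) := mul_le_mul_of_nonneg_right h4 (Real.sqrt_nonneg _)
        _ = _ := mul_comm _ _
    calc (v / C) ^ 2 ≤ (Real.sqrt ((∑ x : E → ℤˣ,
          ((f (Function.update x e 1) - f (Function.update x e (-1))) / 2) ^ 2)
            / (2 : ℝ) ^ Fintype.card E)) ^ 2 :=
          pow_le_pow_left₀ (div_nonneg hv0 hC0) h3 2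
      _ = _ := Real.sq_sqrt hI0

end Pool.Agent.Results.MP_cf5f8b_an.RelationalSymmetry
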